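import Mathlib
import Pool.Agent.R43.WCSUniq
import Pool.Agent.R43.LDMain

/-!
Weakly consecutive permutations (MP_d5a689_co, Q1): there are infinitely many `k` with exactly two
weakly consecutive permutations of `{1, ..., k}`.
-/

namespace Pool.Agent.Results.MP_d5a689_co.InfinitelyManyTwo

/-- A permutation `σ` of `Fin k` stands for the permutation `i ↦ σ (i - 1) + 1` of `{1, ..., k}`.
It is weakly consecutive if `m ∣ σ(i)` and `m ∣ i - j` imply `m ∣ σ(j)`, for `m ∈ {1, ..., k}`. -/
def WeaklyConsecutive (k : ℕ) (σ : Equiv.Perm (Fin k)) : Prop :=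
  ∀ m : ℕ, 1 ≤ m → m ≤ k → ∀ i j : Fin k,
    m ∣ (σ i : ℕ) + 1 → (m : ℤ) ∣ ((i : ℕ) : ℤ) - ((j : ℕ) : ℤ) → m ∣ (σ j : ℕ) + 1

/-- the number of weakly consecutive permutations of `{1, ..., k}` -/
noncomputable def N (k : ℕ) : ℕ := {σ : Equiv.Perm (Fin k) | WeaklyConsecutive k σ}.ncard

/-- the lengths with exactly two weakly consecutive permutations -/
def A : Set ℕ := {k | 2 ≤ k ∧ N k = 2}

open R43WCS

theorem two_cases {k : ℕ} (hk : 1 ≤ k)
    (G1 : ∀ p c, p.Prime → 1 ≤ c → ¬ (p ^ c ≤ k ∧ k < p ^ c + p ^ (c - 1)))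
    (G2 : ¬ R43LD.Ex k) {f : ℕ → ℕ} (hf : IsWCS k f) :
    (∀ i, 1 ≤ i → i ≤ k → f i = i) ∨ (∀ i, 1 ≤ i → i ≤ k → f i = k + 1 - i) := by
  obtain ⟨t, s, l, τ, hs, _, _, hd, he⟩ := exists_deriv hf hk
  have ht : t = 1 ∧ s = fun i => i := by
    cases hs with
    | consecutive => exact ⟨rfl, rfl⟩
    | inversion h => exact absurd (Or.inr (Or.inl h)) G2
    | twice p hp hp2 hkp =>
      have h2 : k / 2 = p := by omega
      exact absurd (Or.inr (Or.inr (Or.inl (h2 ▸ hp)))) G2
    | germain p hp hp2 hp3 hkp =>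
      have h2 : (k + 1) / 2 = p := by omega
      exact absurd (Or.inr (Or.inr (Or.inr (h2 ▸ hp)))) G2
    | fifth p hp hp2 hp3 hkp =>
      have h2 : k / 2 = p := by omega
      exact absurd (Or.inr (Or.inr (Or.inl (h2 ▸ hp)))) G2
  obtain ⟨rfl, rfl⟩ := ht
  obtain ⟨hA, hsem⟩ := deriv_sem hd
  have hnil : pairs l = [] := by
    cases hp : pairs l with
    | nil => rfl
    | cons q L =>
      exfalso
      have h1 := hA q (by rw [hp]; simp)
      rcases h1 with ⟨p, c, hp, hc, _, _, h2, h3⟩ | ⟨h2, _⟩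
      · exact G1 p c hp hc ⟨h2, h3⟩
      · omega
  rw [hnil] at hsem
  by_cases hr : revs l % 2 = 0
  · left
    intro i hi1 hik
    rw [← he i hi1 hik, hsem i hi1 hik, if_pos hr]
    rfl
  · right
    intro i hi1 hik
    rw [← he i hi1 hik, hsem i hi1 hik, if_neg hr]
    rfl

theorem N_two {k : ℕ} (hk : 2 ≤ k)
    (G1 : ∀ p c, p.Prime → 1 ≤ c → ¬ (p ^ c ≤ k ∧ k < p ^ c + p ^ (c - 1)))
    (G2 : ¬ R43LD.Ex k) : N k = 2 := by
  have hset : {σ : Equiv.Perm (Fin k) | WeaklyConsecutive k σ} = {1, Fin.revPerm} := by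
    ext σ
    simp only [Set.mem_setOf_eq, Set.mem_insert_iff, Set.mem_singleton_iff]
    constructor
    · intro hσ
      set f : ℕ → ℕ := fun i => if h : 1 ≤ i ∧ i ≤ k then (σ ⟨i - 1, by omega⟩ : ℕ) + 1 else 0
        with hf
      have hfi : ∀ (i : ℕ) (h : 1 ≤ i ∧ i ≤ k), f i = (σ ⟨i - 1, by omega⟩ : ℕ) + 1 := by
        intro i h
        simp only [hf]
        rw [dif_pos h]
      have hW : IsWCS k f := by
        refine ⟨⟨?_, ?_, ?_⟩, ?_⟩
        · intro i hi
          rw [Set.mem_Icc] at hi ⊢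
          rw [hfi i hi]
          have := (σ ⟨i - 1, by omega⟩).isLt
          omega
        · intro i hi j hj e
          rw [Set.mem_Icc] at hi hj
          rw [hfi i hi, hfi j hj] at e
          have e2 : σ ⟨i - 1, by omega⟩ = σ ⟨j - 1, by omega⟩ := by
            apply Fin.ext
            omega
          have e3 := congrArg Fin.val (σ.injective e2)
          simp only at e3
          omega
        · intro v hv
          rw [Set.mem_Icc] at hv
          refine ⟨(σ.symm ⟨v - 1, by omega⟩ : ℕ) + 1, ?_, ?_⟩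
          · have := (σ.symm ⟨v - 1, by omega⟩).isLt
            rw [Set.mem_Icc]
            omega
          · have hlt := (σ.symm ⟨v - 1, by omega⟩).isLt
            rw [hfi _ ⟨by omega, by omega⟩]
            have e : (⟨(σ.symm ⟨v - 1, by omega⟩ : ℕ) + 1 - 1, by omega⟩ : Fin k) =
                σ.symm ⟨v - 1, by omega⟩ := by
              apply Fin.ext
              simp
            rw [e, Equiv.apply_symm_apply]
            simp only
            omega
        · intro i hi j hj m hm hd hij
          rw [Set.mem_Icc] at hi hj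
          rw [hfi i hi] at hd
          rw [hfi j hj]
          have hmk : m ≤ k := by
            have h1 := Nat.le_of_dvd (by omega) hd
            have h2 := (σ ⟨i - 1, by omega⟩).isLt
            omega
          refine hσ m hm hmk ⟨i - 1, by omega⟩ ⟨j - 1, by omega⟩ hd ?_
          have e1 : ((i - 1 : ℕ) : ℤ) - ((j - 1 : ℕ) : ℤ) = (i : ℤ) - j := by omega
          simp only
          rw [e1]
          exact hij
      rcases two_cases (by omega) G1 G2 hW with h | h
      · left
        apply Equiv.ext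
        intro x
        apply Fin.ext
        have h1 := h (x + 1) (by omega) (by omega)
        rw [hfi (x + 1) ⟨by omega, by omega⟩] at h1
        simp only [Nat.add_sub_cancel, Fin.eta] at h1
        rw [Equiv.Perm.one_apply]
        omega
      · right
        apply Equiv.ext
        intro x
        apply Fin.ext
        have h1 := h (x + 1) (by omega) (by omega)
        rw [hfi (x + 1) ⟨by omega, by omega⟩] at h1
        simp only [Nat.add_sub_cancel, Fin.eta] at h1
        rw [Fin.revPerm_apply, Fin.val_rev]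
        omega
    · rintro (rfl | rfl)
      · intro m _ _ i j hd hij
        rw [Equiv.Perm.one_apply] at hd ⊢
        have h1 : (m : ℤ) ∣ ((i : ℕ) : ℤ) + 1 := by exact_mod_cast hd
        have h2 : (m : ℤ) ∣ ((j : ℕ) : ℤ) + 1 := by
          have e : ((j : ℕ) : ℤ) + 1 = ((i : ℕ) : ℤ) + 1 - (((i : ℕ) : ℤ) - ((j : ℕ) : ℤ)) := by
            ring
          rw [e]
          exact dvd_sub h1 hij
        exact_mod_cast h2
      · intro m _ _ i j hd hij
        rw [Fin.revPerm_apply, Fin.val_rev] at hd ⊢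
        have hi := i.isLt
        have hj := j.isLt
        have e1 : k - ((i : ℕ) + 1) + 1 = k - i := by omega
        have e2 : k - ((j : ℕ) + 1) + 1 = k - j := by omega
        rw [e1] at hd
        rw [e2]
        have h1 : (m : ℤ) ∣ ((k - i : ℕ) : ℤ) := by exact_mod_cast hd
        have h2 : (m : ℤ) ∣ ((k - j : ℕ) : ℤ) := by
          have e : ((k - j : ℕ) : ℤ) = ((k - i : ℕ) : ℤ) + (((i : ℕ) : ℤ) - ((j : ℕ) : ℤ)) := by
            omega
          rw [e]
          exact dvd_add h1 hij
        exact_mod_cast h2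
  unfold N
  rw [hset]
  apply Set.ncard_pair
  intro e
  have h1 := congrArg (fun σ : Equiv.Perm (Fin k) => (σ ⟨0, by omega⟩ : ℕ)) e
  simp only [Equiv.Perm.one_apply, Fin.revPerm_apply, Fin.val_rev] at h1
  omega

/-- There are infinitely many `k` with exactly two weakly consecutive permutations. -/
theorem result : A.Infinite := by
  apply Set.infinite_of_forall_exists_gt
  intro n
  obtain ⟨a, ha, k, hk1, hk2, hE, hB⟩ := R43LD.exists_good (n + 3)
  have h2a : a < 2 ^ a := Nat.lt_two_pow_self
  refine ⟨k, ⟨by omega, N_two (by omega) ?_ hE⟩, by omega⟩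
  rintro p c hp hc ⟨h1, h2⟩
  by_cases hc1 : c = 1
  · subst hc1
    simp only [pow_one, Nat.sub_self, pow_zero] at h1 h2
    have : p = k := by omega
    exact hE (Or.inl (this ▸ hp))
  · by_cases hp3 : 3 ≤ p
    · exact hB p hp hp3 ⟨c, by omega, h1, h2⟩
    · have hp2 : p = 2 := by
        have := hp.two_le
        omega
      subst hp2
      have e : 2 ^ c = 2 * 2 ^ (c - 1) := by
        rw [← pow_succ']; congr 1; omega
      rcases Nat.lt_or_ge a (c - 1) with h3 | h3
      · have h4 : 2 ^ (a + 1) ≤ 2 ^ (c - 1) := Nat.pow_le_pow_right (by norm_num) h3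
        have h5 : 2 ^ (a + 1) = 2 * 2 ^ a := by ring
        omega
      · have h4 : 2 ^ (c - 1) ≤ 2 ^ a := Nat.pow_le_pow_right (by norm_num) h3
        omega

end Pool.Agent.Results.MP_d5a689_co.InfinitelyManyTwo
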